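import Pool.Agent.Helper76.FDG.Fda
import Pool.Agent.Helper93.LVL.Evt
import Pool.Agent.Helper87.NJ.St
import Pool.Agent.Helper14.MC.Cnt

/-! [FUI] one full form on events. -/

set_option autoImplicit false

namespace Pool.Agent.Helper69.NJ

open Finset Filter Topology Matrix Pool.Agent.Helper69.RK Pool.Agent.Helper31.EC Pool.Agent.Helper31.EC.Sp
open Pool.Agent.Helper40.EL Pool.Agent.Helper3.LF Pool.Agent.Helper84.MT
open Pool.Agent.Helper89.LX
open Pool.Agent.Helper14.MC (gexq gexq_UB gexq_nonneg cnt_vol)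
open Pool.Agent.Helper66.NJ (Kn1 gG gG_kn gG_eq zFD)
open Pool.Agent.Helper87.NSL (FmG)
open Pool.Agent.Helper87.NJ (Fuf ROW_FUI)
open Pool.Agent.Helper76.FDG (H_lit vol_lit av)
open Pool.Agent.Helper93.LVL (e_im_le sum_im)

noncomputable section

variable {S T : Sp} {N D : ℕ}

theorem typ_eps {E : ∀ k, (S.F k).Ω → Prop} : Typ (S := S) E ↔
    ∀ ε : ℝ, 0 < ε → ∀ᶠ k in UF, (S.F k).pb (fun ω => ¬ E k ω) ≤ ε := by
  constructor
  · intro h ε hε
    filter_upwards [(show Tendsto _ _ _ from h).eventually (gt_mem_nhds hε)] with k hk using le_of_lt hk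
  · intro h
    refine tendsto_order.mpr ⟨fun a ha => ?_, fun a ha => ?_⟩
    · exact Eventually.of_forall fun k => ha.trans_le ((S.F k).pb_nonneg _)
    · filter_upwards [h (a / 2) (by linarith)] with k hk using lt_of_le_of_lt hk (by linarith)

/-- known on events -/
theorem kn1_im {V : ∀ k, Setoid (S.F k).Ω} {G : ∀ k, (S.F k).Ω → Matrix (Mon N D) (Mon N D) ℝ}
    (h : ∀ᶠ k in UF, Kn1 (V k) (G k)) (p : Pj T S) (A : ∀ k, (T.F k).Ω → Prop) :
    ∀ᶠ k in UF, Kn1 (F := (Sp.im p A).F k) (V k) (G k) := by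
  filter_upwards [h] with k hk ω ω' a b
  exact hk ω ω' (FSp.im_supp (p.fp k) (A k) ω a) (FSp.im_supp (p.fp k) (A k) ω' b)

/-- the form on an event -/
theorem cpd_im {V : ∀ k, Setoid (S.F k).Ω} {Q : S.VV N} {G : ∀ k, (S.F k).Ω → Matrix (Mon N D) (Mon N D) ℝ}
    (h : ∀ᶠ k in UF, Kn1 (V k) (G k)) (hF : FmG Q (fun k => zFD (V k) (G k))) (p : Pj T S)
    (A : ∀ k, (T.F k).Ω → Prop) : ∀ᶠ k in UF, ∀ ω, ((Sp.im p A).F k).μ ω ≠ 0 →
      Cpd ((gaq (Q.im p A) D).cp k) (gG (F := (Sp.im p A).F k) (V k) (G k) ω) := by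
  filter_upwards [h, kn1_im h p A, hF.1] with k h1 h2 h3 ω hω
  rw [gG_eq h2]
  have h4 := h3 ω (FSp.im_supp (p.fp k) (A k) ω hω)
  have e1 : (zFD (V k) (G k)).g ω = G k ω := congrFun (gG_eq h1) ω
  rw [e1] at h4
  exact h4

theorem fmG_im {V : ∀ k, Setoid (S.F k).Ω} {Q : S.VV N} {G : ∀ k, (S.F k).Ω → Matrix (Mon N D) (Mon N D) ℝ}
    (h : ∀ᶠ k in UF, Kn1 (V k) (G k)) (hF : FmG Q (fun k => zFD (V k) (G k))) (p : Pj T S)
    (A : ∀ k, (T.F k).Ω → Prop) (hA : 0 < ul (T.pr A)) :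
    FmG (S := Sp.im p A) (Q.im p A) (fun k => zFD (F := (Sp.im p A).F k) (V k) (G k)) := by
  refine ⟨cpd_im h hF p A, ?_⟩
  have h1 : ∀ η : ℝ, 0 < η → Typ (S := S) (fun k ω => (gaq Q D).φ k ω (G k ω) ≤ 2 ^ (η * (S.F k).n)) := by
    intro η hη
    rw [typ_eps]
    intro ε hε
    have h2 := hF.2 (min η ε) (lt_min hη hε)
    filter_upwards [h2, h] with k h3 h4
    refine le_trans ?_ (h3.trans (min_le_right η ε))
    refine (S.F k).pb_mono ?_
    intro ω _ h5 h6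
    apply h5
    have e1 : (zFD (V k) (G k)).g ω = G k ω := congrFun (gG_eq h4) ω
    rw [e1] at h6
    refine h6.trans (Real.rpow_le_rpow_of_exponent_le (by norm_num) ?_)
    exact mul_le_mul_of_nonneg_right (min_le_left _ _) (S.F k).pos.le
  intro η hη
  have h2 := (typ_eps (S := Sp.im p A) (E := fun k ω => (gaq Q D).φ k ω (G k ω) ≤ 2 ^ (η * (S.F k).n))).mp
    (Pool.Agent.Helper50.BLD.typ_im p A hA (h1 η hη))
  filter_upwards [h2 η hη, kn1_im h p A] with k h3 h4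
  refine le_trans ?_ h3
  refine ((Sp.im p A).F k).pb_mono ?_
  intro ω _ h5 h6
  apply h5
  have e1 : (zFD (F := (Sp.im p A).F k) (V k) (G k)).g ω = G k ω := congrFun (gG_eq h4) ω
  show (gaq (Q.im p A) D).φ k ω ((zFD (F := (Sp.im p A).F k) (V k) (G k)).g ω) ≤ _
  rw [e1]
  exact h6

/-- an admissible form without conditions -/
theorem adf_of_fmG {V : ∀ k, Setoid (S.F k).Ω} {Q : S.VV N} {G : ∀ k, (S.F k).Ω → Matrix (Mon N D) (Mon N D) ℝ}
    (hF : FmG Q (fun k => zFD (V k) (G k))) :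
    (gaq Q D).Adf (κ := Empty) (fun e => e.elim) (fun k => zFD (V k) (G k)) := by
  intro η hη
  filter_upwards [hF.1, hF.2 η hη] with k h1 h2
  exact ⟨fun e => e.elim, fun ω hω => ⟨h1 ω hω, h1 ω hω⟩, h2, h2⟩

theorem H_le_N (Q : S.VV N) : H (Q.dg 1) ≤ N := by
  have h1 := Q.h_dg_dg (r := 0) (s := 1) zero_le_one
  rw [Q.dg_nonpos le_rfl, h_bot] at h1
  linarith

theorem gexq_deg0 {S : Sp} {N : ℕ} (Q : S.VV N) (G : ∀ k, (S.F k).Ω → Matrix (Mon N 0) (Mon N 0) ℝ) (k : ℕ)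
    (ω : (S.F k).Ω) : gexq Q G k ω = 0 := by
  have h0 : ∀ (a : Fin N) (p : Fin N → ℝ), dd a p = (0 : Mon N 0 → ℝ) := by
    intro a p
    funext μ
    have e1 : μ = Mon.zero N 0 := Subtype.ext (funext fun i => by
      have h1 := (μ.1 i).2
      have h2 := ((Mon.zero N 0).1 i).2
      exact Fin.ext (by omega))
    rw [e1, dd_zero]
    rfl
  have h1 : Jq (S.dl 1 k) (G k ω) (Q.v k ω) = 0 := by
    ext a b
    rw [Jq_apply]
    refine Finset.sum_eq_zero fun j _ => ?_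
    rw [h0, zero_dotProduct]
  unfold gexq GQ
  rw [h1, add_zero, Matrix.det_one, Real.logb_one, zero_div]

/-- the entropy is at most the volume -/
theorem H_le_lit {V : ∀ k, Setoid (S.F k).Ω} {Q : S.VV N} {G : ∀ k, (S.F k).Ω → Matrix (Mon N D) (Mon N D) ℝ}
    (hF : FmG Q (fun k => zFD (V k) (G k))) :
    H (up1 (Lab.ofZ V) (Q.dg 1)) ≤ vol Q D (fun k => zFD (V k) (G k)) := by
  rcases Nat.eq_zero_or_pos D with h0 | h0
  · subst h0
    rw [vol_lit]
    have h1 : av S (gexq Q (fun k => gG (V k) (G k))) = fun _ => 0 := by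
      funext k
      refine Finset.sum_eq_zero fun ω _ => ?_
      rw [gexq_deg0, mul_zero]
    rw [h1, ul_const, sub_zero]
    exact (H_up1_le _ _).trans (H_le_N Q)
  · exact cnt_vol Q h0 _ (adf_of_fmG hF)

/-- **ROW FUI** -/
theorem row_fui : ROW_FUI := by
  intro N D S T V Q G p A hA x
  refine ⟨kn1_im x.kn p A, fmG_im x.kn x.fm p A hA, ?_⟩
  set g : ∀ k, (S.F k).Ω → ℝ := gexq Q G with hg
  set B : ∀ k, (T.F k).Ω → Prop := fun k ω => ¬ A k ω with hB
  have eG : ∀ᶠ k in UF, gG (V k) (G k) = G k := by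
    filter_upwards [x.kn] with k hk using gG_eq hk
  have eGi : ∀ C : ∀ k, (T.F k).Ω → Prop, ∀ᶠ k in UF, gG (F := (Sp.im p C).F k) (V k) (G k) = G k := by
    intro C
    filter_upwards [kn1_im x.kn p C] with k hk using gG_eq hk
  -- volumes
  have hvS : vol Q D (fun k => zFD (V k) (G k)) = N - ul (av S g) := by
    rw [vol_lit]
    refine congrArg (fun t => (N : ℝ) - t) (ul_congr ?_)
    filter_upwards [eG] with k hk
    refine Finset.sum_congr rfl fun ω _ => ?_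
    show (S.F k).μ ω * (Real.logb 2 (GQ (S.dl 1 k) (gG (V k) (G k) ω) (Q.v k ω)) / (2 * (S.F k).n)) = _
    rw [hk]
    rfl
  have hvC : ∀ C : ∀ k, (T.F k).Ω → Prop, vol (S := Sp.im p C) (Q.im p C) D
      (fun k => zFD (F := (Sp.im p C).F k) (V k) (G k)) =
        N - ul (fun k => ∑ ω, (FSp.im (p.fp k) (C k)).μ ω * g k ω) := by
    intro C
    refine (vol_lit (S := Sp.im p C) (Q.im p C) V G).trans ?_
    refine congrArg (fun t => (N : ℝ) - t) (ul_congr ?_)
    filter_upwards [eGi C] with k hk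
    refine Finset.sum_congr rfl fun ω _ => ?_
    show ((Sp.im p C).F k).μ ω * (Real.logb 2 (GQ (S.dl 1 k) (gG (F := (Sp.im p C).F k) (V k) (G k) ω) (Q.v k ω)) /
      (2 * (S.F k).n)) = _
    rw [hk]
    rfl
  -- bounded sequences
  have hUg : ∀ C : ∀ k, (T.F k).Ω → Prop, UB (fun k => ∑ ω, (FSp.im (p.fp k) (C k)).μ ω * g k ω) := by
    intro C
    have h1 := gexq_UB (S := Sp.im p C) (Q.im p C) G ((gaq Q D).C + 1) (by linarith [(gaq Q D).C0]) (by
      filter_upwards [cpd_im x.kn x.fm p C, eGi C] with k h2 h3 ω hω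
      have h4 := h2 ω hω
      rw [h3] at h4
      exact h4)
    exact h1
  have hUgS : UB (av S g) := by
    have h1 := gexq_UB (S := S) Q G ((gaq Q D).C + 1) (by linarith [(gaq Q D).C0]) (by
      filter_upwards [x.fm.1, eG] with k h2 h3 ω hω
      have h4 := h2 ω hω
      have e1 : (zFD (V k) (G k)).g ω = G k ω := congrFun h3 ω
      rw [e1] at h4
      exact h4)
    exact h1
  set e : (∀ k, (T.F k).Ω → Prop) → ℕ → ℝ := fun C k =>
    (FSp.im (p.fp k) (C k)).e (Setoid.ker (Q.cellv 1 k)) (V k ⊓ (S.F k).Z) / (S.F k).n with he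
  have hHC : ∀ C : ∀ k, (T.F k).Ω → Prop, H (up1 (Lab.ofZ (S := Sp.im p C) V) ((Q.im p C).dg 1)) = ul (e C) := by
    intro C
    exact H_lit (S := Sp.im p C) (Q.im p C) V
  have hUe : ∀ C : ∀ k, (T.F k).Ω → Prop, UB (e C) := by
    intro C
    exact UB_rt (S := Sp.im p C) ((Q.im p C).bdd 1).toInf V
  have hHS : H (up1 (Lab.ofZ V) (Q.dg 1)) = ul (S.rt (fun k => Setoid.ker (Q.cellv 1 k)) V) := H_lit Q V
  have hUS : UB (S.rt (fun k => Setoid.ker (Q.cellv 1 k)) V) := UB_rt (Q.bdd 1).toInf V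
  set P : ℕ → ℝ := T.pr A with hP
  set p0 : ℝ := ul P with hp0
  have hlP : Tendsto P UF (𝓝 p0) := ul_tendsto (Sp.UB_pr A)
  have hp1 : p0 ≤ 1 := ul_le_const (Sp.UB_pr A) (Eventually.of_forall fun k => pr_le_one A k)
  -- mixtures
  have hmix : ∀ {a b : ℕ → ℝ}, UB a → UB b → Tendsto (fun k => P k * a k + (1 - P k) * b k) UF
      (𝓝 (p0 * ul a + (1 - p0) * ul b)) := fun ha hb =>
    (hlP.mul (ul_tendsto ha)).add ((tendsto_const_nhds.sub hlP).mul (ul_tendsto hb))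
  have h1 : ul (av S g) = p0 * ul (fun k => ∑ ω, (FSp.im (p.fp k) (A k)).μ ω * g k ω) +
      (1 - p0) * ul (fun k => ∑ ω, (FSp.im (p.fp k) (B k)).μ ω * g k ω) := by
    refine ul_eq ((hmix (hUg A) (hUg B)).congr fun k => ?_)
    exact (sum_im (p.fp k) (A k) (g k)).symm
  have h2 : ul (S.rt (fun k => Setoid.ker (Q.cellv 1 k)) V) ≤ p0 * ul (e A) + (1 - p0) * ul (e B) := by
    have h3 : Tendsto (fun k => P k * e A k + (1 - P k) * e B k + 1 / (S.F k).n) UF
        (𝓝 (p0 * ul (e A) + (1 - p0) * ul (e B) + 0)) :=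
      (hmix (hUe A) (hUe B)).add (tendsto_const_nhds.div_atTop S.lim)
    rw [add_zero] at h3
    refine le_of_tendsto_of_tendsto (ul_tendsto hUS) h3 (Eventually.of_forall fun k => ?_)
    have hn := (S.F k).pos
    have h4 := e_im_le (p.fp k) (A k) (Setoid.ker (Q.cellv 1 k)) (V k)
    show (S.F k).e (Setoid.ker (Q.cellv 1 k)) (V k ⊓ (S.F k).Z) / (S.F k).n ≤ _
    have h5 : P k * e A k + (1 - P k) * e B k + 1 / (S.F k).n = (P k *
      (FSp.im (p.fp k) (A k)).e (Setoid.ker (Q.cellv 1 k)) (V k ⊓ (S.F k).Z) + (1 - P k) *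
      (FSp.im (p.fp k) (B k)).e (Setoid.ker (Q.cellv 1 k)) (V k ⊓ (S.F k).Z) + 1) / (S.F k).n := by
      show P k * (_ / (S.F k).n) + (1 - P k) * (_ / (S.F k).n) + 1 / (S.F k).n = _
      ring
    refine le_trans ?_ h5.ge
    exact div_le_div_of_nonneg_right h4 hn.le
  have h6 := x.fu
  rw [hvS, hHS] at h6
  -- the complement
  have h7 : (1 - p0) * ul (e B) ≤ (1 - p0) * (N - ul (fun k => ∑ ω, (FSp.im (p.fp k) (B k)).μ ω * g k ω)) := by
    rcases hp1.lt_or_eq with h8 | h8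
    · have h9 : 0 < ul (T.pr B) := by
        have h10 : ul (T.pr B) = 1 - p0 := by
          refine ul_eq ((tendsto_const_nhds.sub hlP).congr fun k => ?_)
          have := (T.F k).pb_add_compl (A k)
          show 1 - (T.F k).pb (A k) = (T.F k).pb (fun ω => ¬ A k ω)
          linarith
        rw [h10]
        linarith
      have h11 := H_le_lit (fmG_im x.kn x.fm p B h9)
      rw [hHC, hvC] at h11
      exact mul_le_mul_of_nonneg_left h11 (by linarith)
    · rw [h8]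
      simp
  rw [hHC, hvC]
  have h12 : p0 * (N - ul (fun k => ∑ ω, (FSp.im (p.fp k) (A k)).μ ω * g k ω)) ≤ p0 * ul (e A) := by
    have h13 : (N : ℝ) = p0 * N + (1 - p0) * N := by ring
    nlinarith
  exact le_of_mul_le_mul_left h12 hA

end

end Pool.Agent.Helper69.NJ
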